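import Mathlib

/-!
# MP_433145_co: the cubic coefficient in permutation wordle is maximised by cyclic shift

For every `n` and every deranged strategy `S` of length `n`, at most as many secret permutations
are found in exactly three guesses by `S` as by the cyclic shift strategy.
-/

namespace Pool.Agent.Results.MP_433145_co.CubicMax

open Finset Equiv

/-- A strategy: for each `k` a permutation `S[k]` of `k` positions (only `k ≤ n` is ever used in a
game of length `n`). -/
abbrev Strategy : Type := (k : ℕ) → Equiv.Perm (Fin k)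

/-- `S` is deranged (as a strategy of length `n`): `S[k]` has no fixed point for `2 ≤ k ≤ n`. -/
def Deranged (n : ℕ) (S : Strategy) : Prop :=
  ∀ k, 2 ≤ k → k ≤ n → ∀ j : Fin k, S k j ≠ j

/-- The cyclic shift strategy: `CS[k](j) = j + 1` cyclically, i.e. `CS[k] = [2, 3, …, k, 1]`. -/
def CS : Strategy := fun k => finRotate k

/-- The permutation of positions which acts on `I = {i_1 < … < i_k}` by `i_j ↦ i_{S[k](j)}` and
fixes every other position. -/
def emb {n : ℕ} (S : Strategy) (I : Finset (Fin n)) : Equiv.Perm (Fin n) :=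
  Equiv.Perm.ofSubtype (p := fun x => x ∈ I)
    ((I.orderIsoOfFin rfl).toEquiv.permCongr (S I.card))

/-- The set of incorrect positions of the guess `γ` for the secret `π`. -/
def incorrect {n : ℕ} (γ π : Equiv.Perm (Fin n)) : Finset (Fin n) :=
  univ.filter (fun i => γ i ≠ π i)

/-- `guess S π r` is the `(r+1)`-st guess when the secret is `π`.  The first guess is the identity.
With `I = {i_1 < … < i_k}` the incorrect positions of the current guess `γ`, the next guess `γ'`
has `γ'(i_{S[k](j)}) = γ(i_j)` and agrees with `γ` at the correct positions, that is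
`γ' ∘ emb S I = γ`. -/
def guess {n : ℕ} (S : Strategy) (π : Equiv.Perm (Fin n)) : ℕ → Equiv.Perm (Fin n)
  | 0 => 1
  | r + 1 => guess S π r * (emb S (incorrect (guess S π r) π))⁻¹

/-- The game with secret `π` ends after exactly `r` guesses. -/
def EndsAfter {n : ℕ} (S : Strategy) (π : Equiv.Perm (Fin n)) (r : ℕ) : Prop :=
  ∃ m, r = m + 1 ∧ guess S π m = π ∧ ∀ t, t < m → guess S π t ≠ π

/-- `a n S r` is the number `a_r(S) = [x^r] f_S(x)` of secret permutations of `[n]` for which the
game using `S` ends after exactly `r` guesses. -/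
noncomputable def a (n : ℕ) (S : Strategy) (r : ℕ) : ℕ :=
  Nat.card {π : Equiv.Perm (Fin n) // EndsAfter S π r}

/-! ### Basic facts on `emb` -/

section

variable {n : ℕ} {S : Strategy}

lemma f_finv {α : Type*} (f : Equiv.Perm α) (x : α) : f (f⁻¹ x) = x := f.apply_symm_apply x

lemma finv_f {α : Type*} (f : Equiv.Perm α) (x : α) : f⁻¹ (f x) = x := f.symm_apply_apply x

lemma emb_apply_mem (I : Finset (Fin n)) (j : Fin I.card) :
    emb S I ((I.orderIsoOfFin rfl j : I) : Fin n) =
      ((I.orderIsoOfFin rfl (S I.card j) : I) : Fin n) := by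
  have h0 : emb S I ((I.orderIsoOfFin rfl j : I) : Fin n) =
      (((I.orderIsoOfFin rfl).toEquiv.permCongr (S I.card)) (I.orderIsoOfFin rfl j) : I) :=
    Equiv.Perm.ofSubtype_apply_coe _ _
  have h1 : ((I.orderIsoOfFin rfl).toEquiv.permCongr (S I.card)) (I.orderIsoOfFin rfl j) =
      I.orderIsoOfFin rfl (S I.card j) := by
    rw [Equiv.permCongr_apply]
    have : (I.orderIsoOfFin rfl).toEquiv.symm (I.orderIsoOfFin rfl j) = j :=
      (I.orderIsoOfFin rfl).toEquiv.symm_apply_apply j
    rw [this]
    rfl
  rw [h0, h1]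

lemma emb_of_notMem {I : Finset (Fin n)} {x : Fin n} (hx : x ∉ I) : emb S I x = x := by
  unfold emb
  exact Equiv.Perm.ofSubtype_apply_of_not_mem _ hx

lemma exists_index {I : Finset (Fin n)} {x : Fin n} (hx : x ∈ I) :
    ∃ j : Fin I.card, ((I.orderIsoOfFin rfl j : I) : Fin n) = x := by
  refine ⟨(I.orderIsoOfFin rfl).symm ⟨x, hx⟩, by simp⟩

lemma emb_mem {I : Finset (Fin n)} {x : Fin n} (hx : x ∈ I) : emb S I x ∈ I := by
  obtain ⟨j, rfl⟩ := exists_index hx
  rw [emb_apply_mem]
  exact (I.orderIsoOfFin rfl (S I.card j)).2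

lemma emb_ne (hS : Deranged n S) {I : Finset (Fin n)} (hI : 2 ≤ I.card) {x : Fin n} (hx : x ∈ I) :
    emb S I x ≠ x := by
  obtain ⟨j, rfl⟩ := exists_index hx
  rw [emb_apply_mem]
  intro h
  have h2 := (I.orderIsoOfFin rfl).injective (Subtype.ext h)
  have hcard : I.card ≤ n := by simpa using Finset.card_le_univ I
  exact hS I.card hI hcard j h2

lemma incorrect_mem (γ π : Equiv.Perm (Fin n)) (i : Fin n) :
    i ∈ incorrect γ π ↔ γ i ≠ π i := by simp [incorrect]

/-- Two permutations never differ in exactly one position. -/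
lemma incorrect_card_ne_one (γ π : Equiv.Perm (Fin n)) : (incorrect γ π).card ≠ 1 := by
  intro h
  obtain ⟨x, hx⟩ := Finset.card_eq_one.1 h
  have h1 : ∀ i, i ≠ x → γ i = π i := by
    intro i hi
    by_contra hne
    have : i ∈ incorrect γ π := (incorrect_mem _ _ _).2 hne
    rw [hx] at this
    exact hi (by simpa using this)
  have h2 : γ x ≠ π x := (incorrect_mem _ _ _).1 (by rw [hx]; simp)
  -- consider y = γ⁻¹ (π x)
  have h3 : γ⁻¹ (π x) ≠ x := by
    intro h4
    apply h2
    have : γ (γ⁻¹ (π x)) = π x := by simp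
    rw [h4] at this
    exact this
  have h5 := h1 _ h3
  have h6 : γ (γ⁻¹ (π x)) = π x := by simp
  rw [h6] at h5
  exact h3 (π.injective h5).symm

lemma incorrect_eq_empty {γ π : Equiv.Perm (Fin n)} (h : (incorrect γ π).card = 0) : γ = π := by
  ext i
  by_contra hne
  have : i ∈ incorrect γ π := (incorrect_mem _ _ _).2 (fun h => hne (by rw [h]))
  rw [Finset.card_eq_zero.1 h] at this
  simp at this

/-- The good second sets for a first set `I`. -/
def good (S : Strategy) (I : Finset (Fin n)) : Finset (Finset (Fin n)) :=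
  I.powerset.filter (fun K => 2 ≤ K.card ∧ ∀ x ∈ K, emb S I (emb S K x) ≠ x)

def bad (S : Strategy) (I : Finset (Fin n)) : Finset (Finset (Fin n)) :=
  I.powerset.filter (fun K => 2 ≤ K.card ∧ ∃ x ∈ K, emb S I (emb S K x) = x)

lemma good_add_bad (S : Strategy) (I : Finset (Fin n)) :
    (good S I).card + (bad S I).card = (I.powerset.filter (fun K => 2 ≤ K.card)).card := by
  classical
  rw [← Finset.card_union_of_disjoint]
  · congr 1
    ext K
    simp only [good, bad, mem_union, mem_filter, mem_powerset]
    constructor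
    · rintro (h | h)
      · exact ⟨h.1, h.2.1⟩
      · exact ⟨h.1, h.2.1⟩
    · rintro ⟨h1, h2⟩
      by_cases h3 : ∃ x ∈ K, emb S I (emb S K x) = x
      · right; exact ⟨h1, h2, h3⟩
      · left
        push Not at h3
        exact ⟨h1, h2, h3⟩
  · rw [Finset.disjoint_left]
    intro K h1 h2
    simp only [good, bad, mem_filter, mem_powerset] at h1 h2
    obtain ⟨x, hx, hx2⟩ := h2.2.2
    exact h1.2.2 x hx hx2

end

/-! ### The bijection between secrets found in three guesses and pairs of sets -/

section

variable {n : ℕ} {S : Strategy}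

lemma guess_zero (π : Equiv.Perm (Fin n)) : guess S π 0 = 1 := rfl

lemma guess_one (π : Equiv.Perm (Fin n)) :
    guess S π 1 = (emb S (incorrect 1 π))⁻¹ := by
  simp [guess]

lemma guess_two (π : Equiv.Perm (Fin n)) :
    guess S π 2 = (emb S (incorrect 1 π))⁻¹ *
      (emb S (incorrect (emb S (incorrect 1 π))⁻¹ π))⁻¹ := by
  have h := guess_one (S := S) π
  have h2 : guess S π 2 = guess S π 1 * (emb S (incorrect (guess S π 1) π))⁻¹ := rfl
  rw [h2, h]

lemma endsAfter_three (π : Equiv.Perm (Fin n)) :
    EndsAfter S π 3 ↔ guess S π 2 = π ∧ guess S π 0 ≠ π ∧ guess S π 1 ≠ π := by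
  constructor
  · rintro ⟨m, hm, h1, h2⟩
    have : m = 2 := by omega
    subst this
    exact ⟨h1, h2 0 (by norm_num), h2 1 (by norm_num)⟩
  · rintro ⟨h1, h2, h3⟩
    refine ⟨2, rfl, h1, ?_⟩
    intro t ht
    interval_cases t
    · exact h2
    · exact h3

/-- From a pair `(I, K)` build the secret. -/
def secret (S : Strategy) (I K : Finset (Fin n)) : Equiv.Perm (Fin n) :=
  (emb S I)⁻¹ * (emb S K)⁻¹

lemma secret_incorrect_one (hS : Deranged n S) {I K : Finset (Fin n)} (hK : K ∈ good S I) :
    incorrect 1 (secret S I K) = I := by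
  simp only [good, mem_filter, mem_powerset] at hK
  obtain ⟨hKI, hK2, hK3⟩ := hK
  have hI2 : 2 ≤ I.card := hK2.trans (Finset.card_le_card hKI)
  ext i
  rw [incorrect_mem]
  constructor
  · intro h
    by_contra hi
    apply h
    have h1 : i ∉ K := fun h => hi (hKI h)
    have h2 : (emb S K)⁻¹ i = i := by
      rw [Equiv.Perm.inv_eq_iff_eq, emb_of_notMem h1]
    have h3 : (emb S I)⁻¹ i = i := by
      rw [Equiv.Perm.inv_eq_iff_eq, emb_of_notMem hi]
    rw [secret, Equiv.Perm.mul_apply, h2, h3]; rfl
  · intro hi h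
    simp only [Equiv.Perm.coe_one, id_eq, secret, Equiv.Perm.mul_apply] at h
    -- emb S I i = (emb S K)⁻¹ i
    rw [eq_comm, Equiv.Perm.inv_eq_iff_eq] at h
    by_cases hiK : i ∈ K
    · -- x = (emb S K)⁻¹ i = emb S I i
      have hx : (emb S K)⁻¹ i ∈ K := by
        by_contra hx
        have := emb_of_notMem (S := S) hx
        rw [f_finv] at this
        rw [← this] at hx
        exact hx hiK
      apply hK3 _ hx
      rw [f_finv, ← h]
    · have h2 : (emb S K)⁻¹ i = i := by
        rw [Equiv.Perm.inv_eq_iff_eq, emb_of_notMem hiK]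
      rw [h2] at h
      exact emb_ne hS hI2 hi h.symm

lemma secret_incorrect_two (hS : Deranged n S) {I K : Finset (Fin n)} (hK : K ∈ good S I) :
    incorrect (emb S I)⁻¹ (secret S I K) = K := by
  simp only [good, mem_filter, mem_powerset] at hK
  obtain ⟨hKI, hK2, hK3⟩ := hK
  ext i
  rw [incorrect_mem]
  simp only [secret, Equiv.Perm.mul_apply, ne_eq, EmbeddingLike.apply_eq_iff_eq]
  constructor
  · intro h
    by_contra hi
    apply h
    rw [eq_comm, Equiv.Perm.inv_eq_iff_eq, emb_of_notMem hi]
  · intro hi h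
    rw [eq_comm, Equiv.Perm.inv_eq_iff_eq] at h
    exact emb_ne hS hK2 hi h.symm

lemma secret_ends (hS : Deranged n S) {I K : Finset (Fin n)} (hK : K ∈ good S I) :
    EndsAfter S (secret S I K) 3 := by
  have h1 := secret_incorrect_one hS hK
  have h2 := secret_incorrect_two hS hK
  rw [endsAfter_three]
  have hK' := hK
  simp only [good, mem_filter, mem_powerset] at hK'
  obtain ⟨hKI, hK2, hK3⟩ := hK'
  have hI2 : 2 ≤ I.card := hK2.trans (Finset.card_le_card hKI)
  refine ⟨?_, ?_, ?_⟩
  · rw [guess_two, h1, h2]; rfl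
  · rw [guess_zero]
    intro h
    rw [← h] at h1
    have : incorrect (1 : Equiv.Perm (Fin n)) 1 = ∅ := by
      ext i; simp [incorrect_mem]
    rw [this] at h1
    rw [← h1] at hI2
    simp at hI2
  · rw [guess_one, h1]
    intro h
    rw [← h] at h2
    have : incorrect (emb S I)⁻¹ (emb S I)⁻¹ = ∅ := by
      ext i; simp [incorrect_mem]
    rw [this] at h2
    rw [← h2] at hK2
    simp at hK2

lemma ends_pair (_hS : Deranged n S) {π : Equiv.Perm (Fin n)} (h : EndsAfter S π 3) :
    incorrect (emb S (incorrect 1 π))⁻¹ π ∈ good S (incorrect 1 π) ∧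
      secret S (incorrect 1 π) (incorrect (emb S (incorrect 1 π))⁻¹ π) = π := by
  rw [endsAfter_three, guess_two, guess_one, guess_zero] at h
  obtain ⟨h1, h2, h3⟩ := h
  set I := incorrect 1 π with hI
  set K := incorrect (emb S I)⁻¹ π with hK
  have hsec : secret S I K = π := h1
  have hKcard : 2 ≤ K.card := by
    rcases Nat.lt_or_ge K.card 2 with h | h
    · exfalso
      have h4 := incorrect_card_ne_one (emb S I)⁻¹ π
      have h5 : (incorrect (emb S I)⁻¹ π).card = 0 := by
        rw [← hK] at h4 ⊢; omega
      exact h3 (incorrect_eq_empty h5)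
    · exact h
  have hKI : K ⊆ I := by
    intro i hi
    by_contra hiI
    rw [hK, incorrect_mem] at hi
    apply hi
    have h5 : π i = i := by
      by_contra hne
      exact hiI ((incorrect_mem _ _ _).2 (fun h => hne (by simpa using h.symm)))
    rw [h5, Equiv.Perm.inv_eq_iff_eq, emb_of_notMem hiI]
  refine ⟨?_, hsec⟩
  simp only [good, mem_filter, mem_powerset]
  refine ⟨hKI, hKcard, ?_⟩
  intro x hx heq
  -- i = emb S K x ; π i = (emb S I)⁻¹ x = emb S K x = i
  have hi : emb S K x ∈ I := hKI (emb_mem hx)
  rw [hI, incorrect_mem] at hi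
  apply hi
  rw [← hsec]
  simp only [Equiv.Perm.coe_one, id_eq, secret, Equiv.Perm.mul_apply, finv_f]
  rw [eq_comm, Equiv.Perm.inv_eq_iff_eq, heq]

lemma a_three (hS : Deranged n S) :
    a n S 3 = ∑ I : Finset (Fin n), (good S I).card := by
  classical
  rw [← Finset.card_sigma, a, ← Fintype.card_coe, ← Nat.card_eq_fintype_card]
  apply Nat.card_congr
  refine
    { toFun := fun π => ⟨⟨incorrect 1 π.1, incorrect (emb S (incorrect 1 π.1))⁻¹ π.1⟩, ?_⟩
      invFun := fun p => ⟨secret S p.1.1 p.1.2, ?_⟩
      left_inv := ?_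
      right_inv := ?_ }
  · rw [Finset.mem_sigma]
    exact ⟨mem_univ _, (ends_pair hS π.2).1⟩
  · have := (Finset.mem_sigma.1 p.2).2
    exact secret_ends hS this
  · intro π
    exact Subtype.ext (ends_pair hS π.2).2
  · rintro ⟨⟨I, K⟩, hp⟩
    have hK : K ∈ good S I := (Finset.mem_sigma.1 hp).2
    apply Subtype.ext
    simp only
    rw [secret_incorrect_one hS hK, secret_incorrect_two hS hK]

end

/-! ### Cyclic shift -/

section

variable {n : ℕ}

lemma CS_deranged : Deranged n CS := by
  intro k hk _ j
  obtain ⟨m, rfl⟩ : ∃ m, k = m + 1 := ⟨k - 1, by omega⟩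
  intro h
  rw [CS] at h
  by_cases hj : j = Fin.last m
  · subst hj
    rw [finRotate_last] at h
    have := congrArg Fin.val h
    simp at this
    omega
  · have h2 : (j : ℕ) < m := by
      have := j.2
      have h3 : (j : ℕ) ≠ m := fun h => hj (Fin.ext h)
      omega
    have h4 : (finRotate (m + 1) j : ℕ) = j + 1 := by
      have := finRotate_of_lt h2
      simpa using congrArg Fin.val this
    have := congrArg Fin.val h
    omega

/-- `emb CS I` sends `x ∈ I` to the next element of `I`, and the last one to the first one. -/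
lemma CS_next {I : Finset (Fin n)} {x : Fin n} (hx : x ∈ I) :
    (x < emb CS I x ∧ ∀ z ∈ I, z ≤ x ∨ emb CS I x ≤ z) ∨
      (∀ z ∈ I, emb CS I x ≤ z ∧ z ≤ x) := by
  obtain ⟨j, hj⟩ := exists_index hx
  have hemb := emb_apply_mem (S := CS) I j
  rw [hj] at hemb
  have hpos : 0 < I.card := Finset.card_pos.2 ⟨x, hx⟩
  by_cases hlast : (j : ℕ) + 1 < I.card
  · left
    have h1 : ((CS I.card j : Fin I.card) : ℕ) = j + 1 := by
      have key : ∀ k (j : Fin k), (j : ℕ) + 1 < k → ((finRotate k j : Fin k) : ℕ) = j + 1 := by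
        intro k j hjk
        obtain ⟨m, rfl⟩ : ∃ m, k = m + 1 := ⟨k - 1, by omega⟩
        have h2 : (j : ℕ) < m := by omega
        simpa using congrArg Fin.val (finRotate_of_lt h2)
      exact key _ j hlast
    constructor
    · rw [hemb, ← hj]
      have : (I.orderIsoOfFin rfl j) < (I.orderIsoOfFin rfl (CS I.card j)) := by
        rw [OrderIso.lt_iff_lt, Fin.lt_def, h1]
        omega
      exact this
    · intro z hz
      obtain ⟨l, hl⟩ := exists_index hz
      rw [hemb, ← hl]
      rcases Nat.lt_or_ge (j : ℕ) l with h | h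
      · right
        have : (I.orderIsoOfFin rfl (CS I.card j)) ≤ (I.orderIsoOfFin rfl l) := by
          rw [OrderIso.le_iff_le, Fin.le_def, h1]
          omega
        exact this
      · left
        rw [← hj]
        have : (I.orderIsoOfFin rfl l) ≤ (I.orderIsoOfFin rfl j) := by
          rw [OrderIso.le_iff_le, Fin.le_def]
          omega
        exact this
  · right
    have h1 : ((CS I.card j : Fin I.card) : ℕ) = 0 := by
      have key : ∀ k (j : Fin k), (j : ℕ) + 1 = k → ((finRotate k j : Fin k) : ℕ) = 0 := by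
        intro k j hjk
        obtain ⟨m, rfl⟩ : ∃ m, k = m + 1 := ⟨k - 1, by omega⟩
        have h2 : j = Fin.last m := by
          apply Fin.ext
          simp
          omega
        rw [h2, finRotate_last]
        rfl
      exact key _ j (by omega)
    intro z hz
    obtain ⟨l, hl⟩ := exists_index hz
    constructor
    · rw [hemb, ← hl]
      have : (I.orderIsoOfFin rfl (CS I.card j)) ≤ (I.orderIsoOfFin rfl l) := by
        rw [OrderIso.le_iff_le, Fin.le_def, h1]
        omega
      exact this
    · rw [← hj, ← hl]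
      have : (I.orderIsoOfFin rfl l) ≤ (I.orderIsoOfFin rfl j) := by
        rw [OrderIso.le_iff_le, Fin.le_def]
        omega
      exact this

lemma bad_CS_subset (I : Finset (Fin n)) :
    bad CS I ⊆ I.image (fun x => ({x, emb CS I x} : Finset (Fin n))) := by
  intro K hK
  simp only [bad, mem_filter, mem_powerset] at hK
  obtain ⟨hKI, hK2, x, hx, hxx⟩ := hK
  rw [mem_image]
  refine ⟨emb CS K x, hKI (emb_mem hx), ?_⟩
  rw [hxx]
  have hne : emb CS K x ≠ x := emb_ne CS_deranged hK2 hx
  have hyK : emb CS K x ∈ K := emb_mem hx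
  have h1 := CS_next (I := K) hx
  have h2 := CS_next (I := I) (hKI hyK)
  rw [hxx] at h2
  ext z
  simp only [mem_insert, mem_singleton]
  constructor
  · rintro (rfl | rfl)
    · exact hyK
    · exact hx
  · intro hz
    have hzI := hKI hz
    rcases h1 with ⟨h1a, h1b⟩ | h1b
    · rcases h2 with ⟨h2a, h2b⟩ | h2b
      · exact absurd (h1a.trans h2a) (lt_irrefl _)
      · have := h2b z hzI
        rcases h1b z hz with h | h
        · right; exact le_antisymm h this.1
        · left; exact le_antisymm this.2 h
    · rcases h2 with ⟨h2a, h2b⟩ | h2b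
      · have := h1b z hz
        rcases h2b z hzI with h | h
        · left; exact le_antisymm h this.1
        · right; exact le_antisymm this.2 h
      · exfalso
        have a1 := (h1b x hx).1
        have a2 := (h2b _ (hKI hyK)).1
        exact hne (le_antisymm a1 a2)

end

/-! ### Many bad sets for every deranged strategy -/

section

variable {n : ℕ} {S : Strategy}

lemma pair_swap (hS : Deranged n S) {x y : Fin n} (hxy : x ≠ y) :
    emb S {x, y} x = y := by
  have hc : ({x, y} : Finset (Fin n)).card = 2 := Finset.card_pair hxy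
  have h1 : emb S {x, y} x ∈ ({x, y} : Finset (Fin n)) := emb_mem (by simp)
  have h2 : emb S {x, y} x ≠ x := emb_ne hS hc.ge (by simp)
  simp only [mem_insert, mem_singleton] at h1
  tauto

lemma triple_either (hS : Deranged n S) {x y z : Fin n} (hxy : x ≠ y) (hxz : x ≠ z) (hyz : y ≠ z) :
    emb S {x, y, z} x = y ∨ emb S {x, y, z} y = x := by
  have hc : ({x, y, z} : Finset (Fin n)).card = 3 := Finset.card_eq_three.2
    ⟨x, y, z, hxy, hxz, hyz, rfl⟩
  have h1 : emb S {x, y, z} x ∈ ({x, y, z} : Finset (Fin n)) := emb_mem (by simp)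
  have h2 : emb S {x, y, z} x ≠ x := emb_ne hS (by omega) (by simp)
  have h3 : emb S {x, y, z} y ∈ ({x, y, z} : Finset (Fin n)) := emb_mem (by simp)
  have h4 : emb S {x, y, z} y ≠ y := emb_ne hS (by omega) (by simp)
  have h5 : emb S {x, y, z} x ≠ emb S {x, y, z} y := fun h => hxy ((emb S _).injective h)
  simp only [mem_insert, mem_singleton] at h1 h3
  by_contra hcon
  push Not at hcon
  have h6 : emb S {x, y, z} x = z := by tauto
  have h7 : emb S {x, y, z} y = z := by tauto
  exact h5 (h6.trans h7.symm)

lemma card_le_bad (hS : Deranged n S) {I : Finset (Fin n)} (hI : 3 ≤ I.card) :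
    I.card ≤ (bad S I).card := by
  classical
  set s := emb S I with hs
  have hI2 : 2 ≤ I.card := by omega
  have hne : ∀ x ∈ I, s x ≠ x := fun x hx => emb_ne hS hI2 hx
  have hmem : ∀ x ∈ I, s x ∈ I := fun x hx => emb_mem hx
  have hex : ∀ x ∈ I, ∃ K ∈ bad S I,
      (s (s x) ≠ x ∧ K = {x, s x}) ∨ (s (s x) = x ∧ x < s x ∧ K = {x, s x}) ∨
      (s (s x) = x ∧ s x < x ∧ K.card = 3 ∧ x ∈ K ∧ s x ∈ K) := by
    intro x hx
    have hxs := hne x hx
    have hsx := hmem x hx
    have hpair : s (s x) ≠ x ∨ s (s x) = x → ({x, s x} : Finset (Fin n)) ∈ bad S I := by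
      intro _
      simp only [bad, mem_filter, mem_powerset]
      refine ⟨?_, (Finset.card_pair hxs.symm).ge, s x, by simp, ?_⟩
      · intro z hz
        simp only [mem_insert, mem_singleton] at hz
        rcases hz with rfl | rfl
        · exact hx
        · exact hsx
      · rw [Finset.pair_comm, pair_swap hS hxs]
    by_cases h : s (s x) = x
    · rcases lt_or_gt_of_ne hxs with hlt | hlt
      · -- s x < x : triple
        obtain ⟨z, hz, hz2⟩ : ∃ z ∈ I, z ∉ ({x, s x} : Finset (Fin n)) := by
          apply Finset.exists_mem_notMem_of_card_lt_card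
          rw [Finset.card_pair hxs.symm]
          omega
        simp only [mem_insert, mem_singleton, not_or] at hz2
        refine ⟨{x, s x, z}, ?_, Or.inr (Or.inr ⟨h, hlt, ?_, by simp, by simp⟩)⟩
        · simp only [bad, mem_filter, mem_powerset]
          refine ⟨?_, ?_, ?_⟩
          · intro w hw
            simp only [mem_insert, mem_singleton] at hw
            rcases hw with rfl | rfl | rfl
            · exact hx
            · exact hsx
            · exact hz
          · rw [Finset.card_eq_three.2 ⟨x, s x, z, hxs.symm, fun h => hz2.1 h.symm,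
              fun h => hz2.2 h.symm, rfl⟩]
            norm_num
          · rcases triple_either hS hxs.symm (fun h => hz2.1 h.symm)
              (fun h => hz2.2 h.symm) with h3 | h3
            · exact ⟨x, by simp, by rw [h3]; exact h⟩
            · exact ⟨s x, by simp, by rw [h3]⟩
        · exact Finset.card_eq_three.2 ⟨x, s x, z, hxs.symm, fun h => hz2.1 h.symm,
              fun h => hz2.2 h.symm, rfl⟩
      · exact ⟨{x, s x}, hpair (Or.inr h), Or.inr (Or.inl ⟨h, hlt, rfl⟩)⟩
    · exact ⟨{x, s x}, hpair (Or.inl h), Or.inl ⟨h, rfl⟩⟩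
  choose! F hF1 hF2 using hex
  apply Finset.card_le_card_of_injOn F (fun x hx => hF1 x hx)
  intro x hx x' hx' heq
  have hx : x ∈ I := hx
  have hx' : x' ∈ I := hx'
  have e1 := hF2 x hx
  have e2 := hF2 x' hx'
  rw [← heq] at e2
  have hxs := hne x hx
  have hxs' := hne x' hx'
  have hinj : Function.Injective s := s.injective
  -- equal pairs
  have hpp : ∀ {K : Finset (Fin n)}, K = {x, s x} → K = {x', s x'} →
      x = x' ∨ (x = s x' ∧ s x = x') := by
    intro K h1 h2
    rw [h1] at h2
    have hxmem : x ∈ ({x', s x'} : Finset (Fin n)) := by rw [← h2]; simp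
    have hsxmem : s x ∈ ({x', s x'} : Finset (Fin n)) := by rw [← h2]; simp
    simp only [mem_insert, mem_singleton] at hxmem hsxmem
    rcases hxmem with h3 | h3
    · left; exact h3
    · rcases hsxmem with h4 | h4
      · right; exact ⟨h3, h4⟩
      · left; exact hinj h4
  have hcp : ∀ {K : Finset (Fin n)} {u v : Fin n}, K = {u, v} → K.card = 3 → False := by
    intro K u v h1 h2
    have := Finset.card_le_two (a := u) (b := v)
    rw [h1] at h2
    omega
  rcases e1 with ⟨a1, a2⟩ | ⟨a1, a2, a3⟩ | ⟨a1, a2, a3, a4, a5⟩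
  · rcases e2 with ⟨b1, b2⟩ | ⟨b1, b2, b3⟩ | ⟨b1, b2, b3, b4, b5⟩
    · rcases hpp a2 b2 with h | ⟨h, h'⟩
      · exact h
      · exfalso; apply a1; rw [h', ← h]
    · rcases hpp a2 b3 with h | ⟨h, h'⟩
      · exact h
      · exfalso; apply a1; rw [h', ← h]
    · exact (hcp a2 b3).elim
  · rcases e2 with ⟨b1, b2⟩ | ⟨b1, b2, b3⟩ | ⟨b1, b2, b3, b4, b5⟩
    · rcases hpp a3 b2 with h | ⟨h, h'⟩
      · exact h
      · exfalso; apply b1; rw [← h, h']
    · rcases hpp a3 b3 with h | ⟨h, h'⟩
      · exact h
      · exfalso; rw [← h, ← h'] at b2; exact lt_asymm a2 b2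
    · exact (hcp a3 b3).elim
  · rcases e2 with ⟨b1, b2⟩ | ⟨b1, b2, b3⟩ | ⟨b1, b2, b3, b4, b5⟩
    · exact (hcp b2 a3).elim
    · exact (hcp b3 a3).elim
    · by_contra hxx
      have c1 : x ≠ s x' := by
        intro h
        have h5 : s x = x' := by rw [h]; exact b1
        rw [h5] at a2
        rw [← h] at b2
        exact lt_asymm a2 b2
      have c2 : s x ≠ x' := by
        intro h
        apply c1
        rw [← h]; exact a1.symm
      have c3 : s x ≠ s x' := fun h => hxx (hinj h)
      have : ({x, s x, x', s x'} : Finset (Fin n)) ⊆ F x := by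
        intro w hw
        simp only [mem_insert, mem_singleton] at hw
        rcases hw with rfl | rfl | rfl | rfl
        · exact a4
        · exact a5
        · exact b4
        · exact b5
      have hle := Finset.card_le_card this
      have h4 : ({x, s x, x', s x'} : Finset (Fin n)).card = 4 := by
        rw [Finset.card_insert_of_notMem, Finset.card_insert_of_notMem,
          Finset.card_pair hxs'.symm]
        · simp only [mem_insert, mem_singleton, not_or]; exact ⟨c2, c3⟩
        · simp only [mem_insert, mem_singleton, not_or]; exact ⟨hxs.symm, hxx, c1⟩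
      omega

lemma bad_le (hS : Deranged n S) (I : Finset (Fin n)) :
    (bad CS I).card ≤ (bad S I).card := by
  classical
  rcases Nat.lt_or_ge I.card 3 with h | h
  · rcases Nat.lt_or_ge I.card 2 with h2 | h2
    · -- no sets of size ≥ 2
      have : bad CS I = ∅ := by
        apply Finset.eq_empty_of_forall_notMem
        intro K hK
        simp only [bad, mem_filter, mem_powerset] at hK
        have := Finset.card_le_card hK.1
        omega
      rw [this]; simp
    · -- card = 2
      have hc : I.card = 2 := by omega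
      obtain ⟨x, y, hxy, rfl⟩ := Finset.card_eq_two.1 hc
      have h1 : bad CS ({x, y} : Finset (Fin n)) ⊆ {{x, y}} := by
        intro K hK
        simp only [bad, mem_filter, mem_powerset] at hK
        rw [mem_singleton]
        apply Finset.eq_of_subset_of_card_le hK.1
        rw [hc]; exact hK.2.1
      have h2 : ({x, y} : Finset (Fin n)) ∈ bad S ({x, y} : Finset (Fin n)) := by
        simp only [bad, mem_filter, mem_powerset]
        refine ⟨Finset.Subset.refl _, hc.ge, x, by simp, ?_⟩
        rw [pair_swap hS hxy, Finset.pair_comm, pair_swap hS hxy.symm]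
      calc (bad CS ({x, y} : Finset (Fin n))).card ≤ 1 := by
            simpa using Finset.card_le_card h1
        _ ≤ _ := Finset.card_pos.2 ⟨_, h2⟩
  · calc (bad CS I).card ≤ (I.image (fun x => ({x, emb CS I x} : Finset (Fin n)))).card :=
          Finset.card_le_card (bad_CS_subset I)
      _ ≤ I.card := Finset.card_image_le
      _ ≤ _ := card_le_bad hS h

end

/-- **MP_433145_co, Q1 (true).**  For every `n` and every deranged strategy `S` of length `n`,
`[x^3] f_S(x) ≤ [x^3] f_CS(x)`: cyclic shift finds the largest number of secret permutations in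
exactly three guesses. -/
theorem result (n : ℕ) (S : Strategy) (hS : Deranged n S) : a n S 3 ≤ a n CS 3 := by
  rw [a_three hS, a_three CS_deranged]
  apply Finset.sum_le_sum
  intro I _
  have h1 := good_add_bad S I
  have h2 := good_add_bad CS I
  have h3 := bad_le hS I
  omega

end Pool.Agent.Results.MP_433145_co.CubicMax
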